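import Pool.Agent.H958.RL.Stm

/-!
# Project RL: lower bound for the size of a realiser
-/

set_option autoImplicit false

namespace Pool.Agent.H729.RL.Diml

open Finset
open scoped Classical
open Pool.Agent.W830.RD (Om gle Pr Rlz)

/-- The bound for one linear order. -/
theorem single {α : Type} (f : α → ℕ) (A B : Finset α) (b : ℕ)
    (h : ∀ X ⊆ A, ∀ Y ⊆ B, X.card = b → Y.card = b → ∃ x ∈ X, ∃ y ∈ Y, f x ≤ f y) :
    ((A ×ˢ B).filter (fun q => f q.2 < f q.1)).card ≤ b * (A.card + B.card) := by
  -- the elements of `A` with at least `b` smaller elements of `B`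
  obtain ⟨Xs, hXs⟩ : ∃ Xs : Finset α,
      Xs = A.filter (fun x => b ≤ (B.filter (fun y => f y < f x)).card) := ⟨_, rfl⟩
  have hX : Xs.card ≤ b := by
    by_contra hc
    have hne : Xs.Nonempty := Finset.card_pos.1 (by omega)
    obtain ⟨x₀, hx₀, hmin⟩ := Finset.exists_min_image Xs f hne
    have hx₁ : b ≤ (B.filter (fun y => f y < f x₀)).card := by
      rw [hXs] at hx₀
      exact (Finset.mem_filter.1 hx₀).2
    obtain ⟨X, hXX, hXc⟩ := Finset.exists_subset_card_eq (show b ≤ Xs.card by omega)
    obtain ⟨Y, hYY, hYc⟩ := Finset.exists_subset_card_eq hx₁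
    have hXA : X ⊆ A := by
      intro x hx
      have h1 := hXX hx
      rw [hXs] at h1
      exact (Finset.mem_filter.1 h1).1
    obtain ⟨x, hx, y, hy, hxy⟩ := h X hXA Y
      (fun y hy => (Finset.mem_filter.1 (hYY hy)).1) hXc hYc
    have h1 := hmin x (hXX hx)
    have h2 := (Finset.mem_filter.1 (hYY hy)).2
    omega
  have h1 : ((A ×ˢ B).filter (fun q => f q.2 < f q.1)).card =
      ∑ x ∈ A, (((A ×ˢ B).filter (fun q => f q.2 < f q.1)).filter (fun q => q.1 = x)).card :=
    Finset.card_eq_sum_card_fiberwise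
      (fun q hq => (Finset.mem_product.1 (Finset.mem_filter.1 hq).1).1)
  have h2 : ∀ x ∈ A, (((A ×ˢ B).filter (fun q => f q.2 < f q.1)).filter (fun q => q.1 = x)).card ≤
      b + if x ∈ Xs then B.card else 0 := by
    intro x hx
    have h3 : (((A ×ˢ B).filter (fun q => f q.2 < f q.1)).filter (fun q => q.1 = x)).card ≤
        (B.filter (fun y => f y < f x)).card := by
      refine Finset.card_le_card_of_injOn Prod.snd ?_ ?_
      · intro q hq
        obtain ⟨h4, h5⟩ := Finset.mem_filter.1 (Finset.mem_coe.1 hq)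
        obtain ⟨h6, h7⟩ := Finset.mem_filter.1 h4
        rw [h5] at h7
        exact Finset.mem_coe.2 (Finset.mem_filter.2 ⟨(Finset.mem_product.1 h6).2, h7⟩)
      · intro q hq q' hq' h4
        have h5 := (Finset.mem_filter.1 (Finset.mem_coe.1 hq)).2
        have h6 := (Finset.mem_filter.1 (Finset.mem_coe.1 hq')).2
        exact Prod.ext (h5.trans h6.symm) h4
    by_cases hxs : x ∈ Xs
    · rw [if_pos hxs]
      exact h3.trans ((Finset.card_filter_le _ _).trans (Nat.le_add_left _ _))
    · rw [if_neg hxs, add_zero]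
      have h4 : ¬ b ≤ (B.filter (fun y => f y < f x)).card := by
        intro h5
        apply hxs
        rw [hXs]
        exact Finset.mem_filter.2 ⟨hx, h5⟩
      omega
  have hsub : Xs ⊆ A := by
    rw [hXs]
    exact Finset.filter_subset _ _
  have h3 : ∑ x ∈ A, (b + if x ∈ Xs then B.card else 0) = A.card * b + Xs.card * B.card := by
    rw [Finset.sum_add_distrib, Finset.sum_const, smul_eq_mul, ← Finset.sum_filter,
      Finset.sum_const, smul_eq_mul, Finset.filter_mem_eq_inter, Finset.inter_eq_right.2 hsub]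
  rw [h1]
  refine (Finset.sum_le_sum h2).trans ?_
  rw [h3]
  calc A.card * b + Xs.card * B.card ≤ A.card * b + b * B.card :=
        Nat.add_le_add_left (Nat.mul_le_mul_right _ hX) _
    _ = b * (A.card + B.card) := by ring

theorem main : Pool.Agent.H958.RL.S_DIML := by
  intro n k b E A B hR h
  obtain ⟨f, _, hf⟩ := hR
  have h1 : (A ×ˢ B).filter (fun q => ¬ gle E q.1 q.2) ⊆
      (univ : Finset (Fin k)).biUnion
        (fun i => (A ×ˢ B).filter (fun q => f i q.2 < f i q.1)) := by
    intro q hq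
    obtain ⟨h2, h3⟩ := Finset.mem_filter.1 hq
    rw [hf] at h3
    push Not at h3
    obtain ⟨i, hi⟩ := h3
    exact Finset.mem_biUnion.2 ⟨i, Finset.mem_univ i, Finset.mem_filter.2 ⟨h2, hi⟩⟩
  refine (Finset.card_le_card h1).trans (Finset.card_biUnion_le.trans ?_)
  have h2 : ∀ i ∈ (univ : Finset (Fin k)),
      ((A ×ˢ B).filter (fun q => f i q.2 < f i q.1)).card ≤ b * (A.card + B.card) := by
    intro i _
    apply single (f i) A B b
    intro X hX Y hY hXc hYc
    obtain ⟨x, hx, y, hy, hxy⟩ := h X hX Y hY hXc hYc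
    exact ⟨x, hx, y, hy, (hf x y).1 hxy i⟩
  refine (Finset.sum_le_sum h2).trans ?_
  rw [Finset.sum_const, Finset.card_univ, Fintype.card_fin, smul_eq_mul]

end Pool.Agent.H729.RL.Diml
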